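import Pool.Agent.Helper98.RS.A1

/-!
# RS4: series of commutator steps and square steps

`Ser s A` applies the steps of the list `s` (first letter first) to the subgroup `A`:
`false` is the commutator step `A ↦ ⁅A, A⁆`, `true` is the square step `A ↦ RQ A`.
-/

set_option autoImplicit false

open scoped Pointwise commutatorElement

namespace Pool.Agent.Helper94.RS4

open Pool.Agent.Helper98.RS

section Defs

variable {H : Type} [Group H]

/-- `K` is admissible for the square step from `A`: squares of elements of `A` commute modulo `K`,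
and elements of `A` whose squares are in `K` commute modulo `K`. -/
def Adm (A K : Subgroup H) : Prop :=
  (∀ x ∈ A, ∀ y ∈ A, ⁅x ^ 2, y ^ 2⁆ ∈ K) ∧
    ∀ x ∈ A, ∀ y ∈ A, x ^ 2 ∈ K → y ^ 2 ∈ K → ⁅x, y⁆ ∈ K

/-- The smallest admissible subgroup. -/
def RQ (A : Subgroup H) : Subgroup H := sInf {K : Subgroup H | Adm A K}

/-- One step: `true` is the square step, `false` is the commutator step. -/
def step (c : Bool) (A : Subgroup H) : Subgroup H := if c then RQ A else ⁅A, A⁆

/-- A sequence of steps. -/
def Ser : List Bool → Subgroup H → Subgroup H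
  | [], A => A
  | c :: s, A => Ser s (step c A)

end Defs

/-- The cost of a list of steps, in bits: `2` for a commutator step, `3` for a square step. -/
def bits : List Bool → ℕ
  | [] => 0
  | c :: s => (if c then 3 else 2) + bits s

/-- All finite soluble completely reducible linear groups of degree at most `a` over the field with
`p` elements die along the list `s`. -/
def LinTy (p a : ℕ) (s : List Bool) : Prop :=
  ∀ [Fact p.Prime] (H : Type) [Group H] [Finite H] (V : Type) [AddCommGroup V] [Module (ZMod p) V]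
    [Finite V] (ρ : Representation (ZMod p) H V), Sol H → Function.Injective ρ → CR ρ →
    Module.finrank (ZMod p) V ≤ a → Ser s (⊤ : Subgroup H) = ⊥

/-! ### Bits -/

theorem bits_nil : bits [] = 0 := rfl

theorem bits_cons (c : Bool) (s : List Bool) : bits (c :: s) = (if c then 3 else 2) + bits s := rfl

theorem bits_append (s t : List Bool) : bits (s ++ t) = bits s + bits t := by
  induction s with
  | nil => simp [bits]
  | cons c s ih => simp only [List.cons_append, bits_cons, ih, add_assoc]

theorem bits_rep (m : ℕ) : bits (List.replicate m false) = 2 * m := by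
  induction m with
  | zero => rfl
  | succ m ih =>
    rw [List.replicate_succ, bits_cons, ih]
    simp
    omega

/-! ### The square step -/

section Lemmas

variable {H H' : Type} [Group H] [Group H']

theorem adm_RQ (A : Subgroup H) : Adm A (RQ A) := by
  refine ⟨fun x hx y hy => ?_, fun x hx y hy h1 h2 => ?_⟩
  · exact Subgroup.mem_sInf.2 fun K hK => hK.1 x hx y hy
  · refine Subgroup.mem_sInf.2 fun K hK => ?_
    exact hK.2 x hx y hy (Subgroup.mem_sInf.1 h1 K hK) (Subgroup.mem_sInf.1 h2 K hK)

theorem RQ_le_of_adm {A K : Subgroup H} (h : Adm A K) : RQ A ≤ K := sInf_le h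

theorem adm_self (A : Subgroup H) : Adm A A := by
  refine ⟨fun x hx y hy => ?_, fun x hx y hy _ _ => ?_⟩
  · exact A.mul_mem (A.mul_mem (A.mul_mem (A.pow_mem hx 2) (A.pow_mem hy 2))
      (A.inv_mem (A.pow_mem hx 2))) (A.inv_mem (A.pow_mem hy 2))
  · exact A.mul_mem (A.mul_mem (A.mul_mem hx hy) (A.inv_mem hx)) (A.inv_mem hy)

theorem RQ_le (A : Subgroup H) : RQ A ≤ A := RQ_le_of_adm (adm_self A)

theorem adm_mono {A B K : Subgroup H} (h : A ≤ B) (hK : Adm B K) : Adm A K :=
  ⟨fun x hx y hy => hK.1 x (h hx) y (h hy), fun x hx y hy => hK.2 x (h hx) y (h hy)⟩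

theorem RQ_mono {A B : Subgroup H} (h : A ≤ B) : RQ A ≤ RQ B :=
  RQ_le_of_adm (adm_mono h (adm_RQ B))

theorem adm_comap (f : H →* H') {A : Subgroup H} {K : Subgroup H'} (h : Adm (A.map f) K) :
    Adm A (K.comap f) := by
  refine ⟨fun x hx y hy => ?_, fun x hx y hy h1 h2 => ?_⟩
  · rw [Subgroup.mem_comap, map_commutatorElement, map_pow, map_pow]
    exact h.1 _ (Subgroup.mem_map_of_mem f hx) _ (Subgroup.mem_map_of_mem f hy)
  · rw [Subgroup.mem_comap] at h1 h2 ⊢
    rw [map_pow] at h1 h2
    rw [map_commutatorElement]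
    exact h.2 _ (Subgroup.mem_map_of_mem f hx) _ (Subgroup.mem_map_of_mem f hy) h1 h2

theorem RQ_map_le (f : H →* H') (A : Subgroup H) : (RQ A).map f ≤ RQ (A.map f) := by
  rw [Subgroup.map_le_iff_le_comap]
  exact RQ_le_of_adm (adm_comap f (adm_RQ _))

theorem adm_map_inj (f : H →* H') (hf : Function.Injective f) {A K : Subgroup H} (h : Adm A K) :
    Adm (A.map f) (K.map f) := by
  have hmem : ∀ x : H, f x ∈ K.map f → x ∈ K := fun x hx => by
    obtain ⟨k, hk, hkx⟩ := hx
    rwa [← hf hkx]
  refine ⟨?_, ?_⟩
  · rintro _ ⟨x, hx, rfl⟩ _ ⟨y, hy, rfl⟩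
    rw [← map_pow, ← map_pow, ← map_commutatorElement]
    exact Subgroup.mem_map_of_mem f (h.1 x hx y hy)
  · rintro _ ⟨x, hx, rfl⟩ _ ⟨y, hy, rfl⟩ h1 h2
    rw [← map_pow] at h1 h2
    rw [← map_commutatorElement]
    exact Subgroup.mem_map_of_mem f (h.2 x hx y hy (hmem _ h1) (hmem _ h2))

theorem RQ_map_inj (f : H →* H') (hf : Function.Injective f) (A : Subgroup H) :
    (RQ A).map f = RQ (A.map f) :=
  le_antisymm (RQ_map_le f A) (RQ_le_of_adm (adm_map_inj f hf (adm_RQ A)))

/-! ### Steps -/

theorem step_le (c : Bool) (A : Subgroup H) : step c A ≤ A := by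
  cases c
  · show ⁅A, A⁆ ≤ A
    exact Subgroup.commutator_le_self A
  · exact RQ_le A

theorem step_mono (c : Bool) {A B : Subgroup H} (h : A ≤ B) : step c A ≤ step c B := by
  cases c
  · exact Subgroup.commutator_mono h h
  · exact RQ_mono h

theorem step_map_le (c : Bool) (f : H →* H') (A : Subgroup H) :
    (step c A).map f ≤ step c (A.map f) := by
  cases c
  · show (⁅A, A⁆).map f ≤ ⁅A.map f, A.map f⁆
    rw [Subgroup.map_commutator]
  · exact RQ_map_le f A

theorem step_map_inj (c : Bool) (f : H →* H') (hf : Function.Injective f) (A : Subgroup H) :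
    (step c A).map f = step c (A.map f) := by
  cases c
  · show (⁅A, A⁆).map f = ⁅A.map f, A.map f⁆
    rw [Subgroup.map_commutator]
  · exact RQ_map_inj f hf A

/-! ### Series -/

theorem ser_nil (A : Subgroup H) : Ser [] A = A := rfl

theorem ser_cons (c : Bool) (s : List Bool) (A : Subgroup H) : Ser (c :: s) A = Ser s (step c A) :=
  rfl

theorem ser_append (s t : List Bool) (A : Subgroup H) : Ser (s ++ t) A = Ser t (Ser s A) := by
  induction s generalizing A with
  | nil => rfl
  | cons c s ih => exact ih (step c A)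

theorem ser_le (s : List Bool) (A : Subgroup H) : Ser s A ≤ A := by
  induction s generalizing A with
  | nil => exact le_rfl
  | cons c s ih => exact (ih (step c A)).trans (step_le c A)

theorem ser_mono (s : List Bool) {A B : Subgroup H} (h : A ≤ B) : Ser s A ≤ Ser s B := by
  induction s generalizing A B with
  | nil => exact h
  | cons c s ih => exact ih (step_mono c h)

theorem ser_map_le (s : List Bool) (f : H →* H') (A : Subgroup H) :
    (Ser s A).map f ≤ Ser s (A.map f) := by
  induction s generalizing A with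
  | nil => exact le_rfl
  | cons c s ih => exact (ih (step c A)).trans (ser_mono s (step_map_le c f A))

theorem ser_map_inj (s : List Bool) (f : H →* H') (hf : Function.Injective f) (A : Subgroup H) :
    (Ser s A).map f = Ser s (A.map f) := by
  induction s generalizing A with
  | nil => rfl
  | cons c s ih =>
    rw [ser_cons, ih (step c A), step_map_inj c f hf, ser_cons]

theorem ser_conj (s : List Bool) (A : Subgroup H) [hA : A.Normal] (h : H) {x : H}
    (hx : x ∈ Ser s A) : h * x * h⁻¹ ∈ Ser s A := by
  have h1 := ser_map_inj s (MulAut.conj h).toMonoidHom (MulAut.conj h).injective A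
  have h2 : A.map (MulAut.conj h).toMonoidHom = A := by
    apply le_antisymm
    · rintro _ ⟨y, hy, rfl⟩
      exact hA.conj_mem y hy h
    · intro y hy
      refine ⟨h⁻¹ * y * h, ?_, ?_⟩
      · have := hA.conj_mem y hy h⁻¹
        simpa using this
      · show h * (h⁻¹ * y * h) * h⁻¹ = y
        group
  rw [h2] at h1
  rw [← h1]
  exact ⟨x, hx, rfl⟩

instance ser_normal (s : List Bool) (A : Subgroup H) [A.Normal] : (Ser s A).Normal :=
  ⟨fun _ hx h => ser_conj s A h hx⟩

theorem ser_of_homs (s : List Bool)
    (h : ∀ g : H, g ≠ 1 → ∃ (K : Type) (_ : Group K) (f : H →* K), f g ≠ 1 ∧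
      Ser s (⊤ : Subgroup K) = ⊥) : Ser s (⊤ : Subgroup H) = ⊥ := by
  rw [eq_bot_iff]
  intro g hg
  rw [Subgroup.mem_bot]
  by_contra hne
  obtain ⟨K, _, f, hf, hK⟩ := h g hne
  apply hf
  have h1 := (ser_map_le s f ⊤).trans (ser_mono s le_top) (Subgroup.mem_map_of_mem f hg)
  rw [hK, Subgroup.mem_bot] at h1
  exact h1

theorem ser_of_inj (s : List Bool) (f : H →* H') (hf : Function.Injective f)
    (h : Ser s (⊤ : Subgroup H') = ⊥) : Ser s (⊤ : Subgroup H) = ⊥ := by
  refine ser_of_homs s fun g hg => ⟨H', inferInstance, f, fun h1 => hg ?_, h⟩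
  exact hf (h1.trans (map_one f).symm)

theorem ser_ext (K : Subgroup H) [K.Normal] (s t : List Bool)
    (h1 : Ser s (⊤ : Subgroup (H ⧸ K)) = ⊥) (h2 : Ser t (⊤ : Subgroup K) = ⊥) :
    Ser (s ++ t) (⊤ : Subgroup H) = ⊥ := by
  have h3 : Ser s (⊤ : Subgroup H) ≤ K := by
    have h4 := ((ser_map_le s (QuotientGroup.mk' K) ⊤).trans (ser_mono s le_top)).trans h1.le
    have h5 := (Ser s (⊤ : Subgroup H)).map_eq_bot_iff.mp (le_bot_iff.mp h4)
    rwa [QuotientGroup.ker_mk'] at h5
  rw [ser_append, eq_bot_iff]
  refine (ser_mono t h3).trans ?_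
  have h6 : (⊤ : Subgroup K).map K.subtype = K := by
    rw [← MonoidHom.range_eq_map, Subgroup.range_subtype]
  have h7 := ser_map_inj t K.subtype (Subgroup.subtype_injective K) ⊤
  rw [h6, h2, Subgroup.map_bot] at h7
  exact h7.symm.le

theorem ser_rep (m : ℕ) : Ser (List.replicate m false) (⊤ : Subgroup H) = derivedSeries H m := by
  have h : ∀ m k : ℕ, Ser (List.replicate m false) (derivedSeries H k) =
      derivedSeries H (k + m) := by
    intro m
    induction m with
    | zero => intro k; rfl
    | succ m ih =>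
      intro k
      rw [List.replicate_succ, ser_cons]
      have h1 : step false (derivedSeries H k) = derivedSeries H (k + 1) := rfl
      rw [h1, ih (k + 1)]
      congr 1
      omega
  have h2 := h m 0
  rw [zero_add] at h2
  exact h2

theorem linTy_of_linDL {p a m : ℕ} (h : LinDL Sol p a m) : LinTy p a (List.replicate m false) := by
  intro _ H _ _ V _ _ _ ρ hH hi hc hV
  rw [ser_rep]
  exact h H V ρ hH hi hc hV

end Lemmas

end Pool.Agent.Helper94.RS4
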