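import Pool.Agent.Helper94.RS4.Final
import Pool.Agent.Helper75.LS.L20
import Pool.Agent.Helper75.LS.L21

set_option autoImplicit false

open scoped Pointwise

namespace Pool.Agent.Helper94.RS4

open Pool.Agent.Helper98.RS

/-- Residually soluble groups of growth at most `exp (n ^ α)`, `α < 1 / 4`, are virtually
nilpotent. -/
theorem final_vn (G : Type) [Group G] (S : Set G) (hSf : S.Finite) (hS : Subgroup.closure S = ⊤)
    (hres : ∀ g : G, g ≠ 1 → ∃ (N : Subgroup G) (_ : N.Normal), g ∉ N ∧ Group.IsSolvable (G ⧸ N))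
    (α : ℝ) (hα : α < 1 / 4)
    (hgr : ∃ C : ℝ, 0 < C ∧ ∀ n : ℕ, (Nat.card ↥((({1} : Set G) ∪ S ∪ S⁻¹) ^ n) : ℝ) ≤
      C * Real.exp ((C * n) ^ α)) :
    ∃ H : Subgroup G, H.FiniteIndex ∧ Group.IsNilpotent H := by
  obtain ⟨H, hH, hresH⟩ := final4 G S hSf hS hres α hα hgr
  obtain ⟨C, hC, hgr⟩ := hgr
  have hα4 : max α 0 < 1 / 4 := max_lt hα (by norm_num)
  obtain ⟨β', hβ'1, hβ'2⟩ := _root_.exists_between hα4
  obtain ⟨β, hβ1, hβ2⟩ := _root_.exists_between hβ'1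
  have hβ0 : 0 < β := (le_max_right _ _).trans_lt hβ1
  have hαβ : α < β := (le_max_left _ _).trans_lt hβ1
  have hG : GB S β := by
    obtain ⟨n0, hn0⟩ := fin_rpow C α β hC hβ0 hαβ
    exact ⟨n0, fun n hn => (hgr n).trans (hn0 n hn)⟩
  obtain ⟨T, hTf, hT, hGT⟩ :=
    Pool.Agent.Helper75.LS.gb_subgroup S hSf hS β β' hβ2 (hβ0.trans hβ2) hG H hH
  exact Pool.Agent.Helper75.LS.vn_of_subgroup H hH
    (Pool.Agent.Helper75.LS.last T hTf hT β' hβ'2 hGT hresH)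

end Pool.Agent.Helper94.RS4
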