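import Pool.Agent.Helper94.RS4.Defs
import Pool.Agent.Helper31.RS4.U2

set_option autoImplicit false

open scoped Pointwise commutatorElement

namespace Pool.Agent.Helper94.RS4

open Pool.Agent.Helper98.RS

/-- `GL(2,3)`: two commutator steps reach `Q₈`, one square step kills it. -/
theorem gl23 : LinTy 3 2 [false, false, true] := by
  intro _ H _ _ V _ _ _ ρ _ hi _ hV
  have hser : Ser [false, false, true] (⊤ : Subgroup H) =
      RQ ⁅⁅(⊤ : Subgroup H), (⊤ : Subgroup H)⁆, ⁅(⊤ : Subgroup H), (⊤ : Subgroup H)⁆⁆ := rfl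
  rw [hser, eq_bot_iff]
  obtain ⟨h1, h2⟩ := Pool.Agent.Helper31.RS4.main_rep ρ hi hV _ le_rfl
  refine RQ_le_of_adm ⟨fun x hx y _ => ?_, fun x hx y _ hx2 _ => ?_⟩
  · rw [Subgroup.mem_bot, commutatorElement_eq_one_iff_mul_comm]
    exact h1 x hx _
  · rw [Subgroup.mem_bot, commutatorElement_eq_one_iff_mul_comm]
    exact h2 x hx (Subgroup.mem_bot.1 hx2) y

end Pool.Agent.Helper94.RS4
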