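import Pool.Agent.Helper94.RS4.Defs
import Pool.Agent.Helper47.RS4.PermF

set_option autoImplicit false

open scoped Pointwise commutatorElement

namespace Pool.Agent.Helper94.RS4

open Pool.Agent.Helper98.RS

theorem fct_ser (s : List Bool) :
    Pool.Agent.Helper47.RS4.Fct (fun G [Group G] => Ser s (⊤ : Subgroup G)) := by
  intro G K _ _ f x hx
  exact (ser_map_le s f ⊤).trans (ser_mono s le_top) (Subgroup.mem_map_of_mem f hx)

/-- Variant of `perm_step'` of `Helper47/RS/OneOrbit.lean` (same proof): `H / K` acts faithfully and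
transitively on the blocks, and `K` embeds in a product of primitive groups of degree `r ^ a`. -/
theorem perm_step_ty (H : Type) [Group H] [Finite H] (X : Type) [Finite X] [MulAction H X]
    (hH : Sol H) (hf : ∀ h : H, (∀ x : X, h • x = x) → h = 1)
    (ht : MulAction.IsPretransitive H X) (hX : 2 ≤ Nat.card X) :
    ∃ (r a : ℕ) (K : Subgroup H) (_ : K.Normal) (Y : Type) (_ : Finite Y)
      (_ : MulAction (H ⧸ K) Y), r.Prime ∧ 1 ≤ a ∧ Nat.card X = Nat.card Y * r ^ a ∧
      (∀ h : H ⧸ K, (∀ y : Y, h • y = y) → h = 1) ∧ MulAction.IsPretransitive (H ⧸ K) Y ∧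
      (∀ s, LinTy r a s → Ser (s ++ [false]) (⊤ : Subgroup K) = ⊥) := by
  obtain ⟨r, a, n', K, hKn, hr, ha, hcard, ⟨Y, hYf, hYa, hYfa, hYt, hYc⟩, hK⟩ :=
    Pool.Agent.Helper47.RS4.perm_step_F H X hH hf ht hX
  refine ⟨r, a, K, hKn, Y, hYf, hYa, hr, ha, by rw [hYc]; exact hcard, hYfa, hYt, ?_⟩
  intro s hs
  rw [ser_append]
  exact hK (fun G [Group G] => Ser s (⊤ : Subgroup G)) (fct_ser s) hs

end Pool.Agent.Helper94.RS4
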