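import Pool.Agent.Helper94.RS4.U2
import Pool.Agent.Helper94.RS4.U3
import Pool.Agent.Helper98.RS.A12
import Pool.Agent.Helper47.RS4.PermTy

set_option autoImplicit false

open scoped Pointwise commutatorElement

namespace Pool.Agent.Helper94.RS4

open Pool.Agent.Helper98.RS

theorem perm_num (r a : ℕ) (hr : r.Prime) (ha : 1 ≤ a) (h : ¬ (r = 3 ∧ a = 2)) :
    4 ^ (1 + fr r a) ≤ (r ^ a) ^ 3 := by
  rw [add_comm, ← pow_mul, mul_comm a 3]
  exact Pool.Agent.Helper47.RS4.fr_num r a hr ha h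

/-- Transitive soluble permutation groups die along a list of at most `3 log₂ n` bits. -/
theorem perm_ty (H : Type) [Group H] [Finite H] (X : Type) [Finite X] [MulAction H X]
    (hH : Sol H) (hf : ∀ h : H, (∀ x : X, h • x = x) → h = 1)
    (ht : MulAction.IsPretransitive H X) (hX : 1 ≤ Nat.card X) :
    ∃ s : List Bool, Ser s (⊤ : Subgroup H) = ⊥ ∧ 2 ^ bits s ≤ Nat.card X ^ 3 := by
  refine Pool.Agent.Helper47.RS4.perm_ty_abs (fun s G [Group G] => Ser s (⊤ : Subgroup G)) bits
    (fun G _ => rfl) fct_ser (fun s G _ => ?_) (fun s t G _ K _ h1 h2 => ser_ext K s t h1 h2)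
    rfl bits_append rfl (fun r a hr ha => ?_) (Nat.card X) H X rfl hX hH hf ht
  · show Ser (s ++ [false]) (⊤ : Subgroup G) = ⁅Ser s (⊤ : Subgroup G), Ser s (⊤ : Subgroup G)⁆
    rw [ser_append]
    rfl
  · by_cases h : r = 3 ∧ a = 2
    · obtain ⟨rfl, rfl⟩ := h
      refine ⟨[false, false, true], gl23, ?_⟩
      have hb : bits [false, false, true] = 7 := rfl
      rw [hb]
      norm_num
    · refine ⟨List.replicate (fr r a) false, linTy_of_linDL (lin_bound r a), ?_⟩
      rw [bits_rep]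
      have h1 := Pool.Agent.Helper47.RS4.fr_num r a hr ha h
      calc 2 ^ (2 * fr r a + 2) = 4 ^ (fr r a + 1) := by
            rw [show (4 : ℕ) = 2 ^ 2 by norm_num, ← pow_mul]
            congr 1
        _ ≤ r ^ (3 * a) := h1

end Pool.Agent.Helper94.RS4
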