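import Pool.Agent.Helper94.RS4.Defs
import Pool.Agent.Helper98.RS.A6

set_option autoImplicit false

open scoped Pointwise commutatorElement

namespace Pool.Agent.Helper94.RS4

open Pool.Agent.Helper98.RS

/-- The vectors killed by an ideal. -/
private def U4tor (k V : Type) [Field k] [AddCommGroup V] [Module k V] {R : Type}
    [CommRing R] [Algebra k R] [Module R V] [IsScalarTower k R V] (I : Ideal R) : Submodule k V :=
  (Submodule.torsionBySet R V (I : Set R)).restrictScalars k

section Core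

variable {k : Type} [Field k] {V : Type} [AddCommGroup V] [Module k V] {R : Type}
  [CommRing R] [Algebra k R] [Module R V] [IsScalarTower k R V]

private theorem U4_mem {I : Ideal R} {v : V} : v ∈ U4tor k V I ↔ ∀ r ∈ I, r • v = 0 := by
  unfold U4tor
  rw [Submodule.restrictScalars_mem, Submodule.mem_torsionBySet_iff]
  exact ⟨fun h r hr => h ⟨r, hr⟩, fun h r => h r.1 r.2⟩

private theorem U4_indep {X : Type} [Finite X] (m : X → Ideal R)
    (hm : ∀ x, (m x).IsMaximal) (hne : ∀ x y, x ≠ y → m x ≠ m y) :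
    iSupIndep (fun x => U4tor k V (m x)) := by
  classical
  haveI := Fintype.ofFinite X
  have h1 : iSupIndep (fun x => Submodule.torsionBySet R V (m x : Set R)) := by
    rw [iSupIndep_iff_supIndep_univ]
    refine Submodule.supIndep_torsionBySet_ideal fun x _ y _ hxy => ?_
    exact (hm x).coprime_of_ne (hm y) (hne x y hxy)
  intro x
  rw [Submodule.disjoint_def]
  intro v hv hv'
  have h3 := h1 x
  rw [Submodule.disjoint_def] at h3
  refine h3 v hv ?_
  have h4 : (⨆ y, ⨆ (_ : y ≠ x), U4tor k V (m y)) ≤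
      (⨆ y, ⨆ (_ : y ≠ x), Submodule.torsionBySet R V (m y : Set R)).restrictScalars k := by
    refine iSup_le fun y => iSup_le fun hy => ?_
    intro w hw
    have h5 : w ∈ Submodule.torsionBySet R V (m y : Set R) := hw
    exact (le_iSup₂_of_le (f := fun y (_ : y ≠ x) => Submodule.torsionBySet R V (m y : Set R))
      y hy le_rfl) h5
  exact h4 hv'

variable {H : Type} [Group H]

private theorem U4_core [Finite V] [Finite H] (ρ : Representation k H V) (hirr : Irr ρ)
    [Finite R] (hf : ∀ r : R, (∀ v : V, r • v = 0) → r = 0) (c : H → R →+* R)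
    (hc : ∀ h r (v : V), r • ρ h v = ρ h (c h r • v)) (hR : ¬ IsField R) :
    ∃ W0 : Submodule k V, W0 ≠ ⊥ ∧ W0 ≠ ⊤ ∧
      (∀ W : Submodule k V, (∃ h, W = W0.map (ρ h)) → ∀ (r : R), ∀ v ∈ W, r • v ∈ W) ∧
      iSupIndep (fun W : {W : Submodule k V // ∃ h, W = W0.map (ρ h)} => (W : Submodule k V)) ∧
      (⨆ W : {W : Submodule k V // ∃ h, W = W0.map (ρ h)}, (W : Submodule k V)) = ⊤ := by
  have hinvr : ∀ h (v : V), ρ h (ρ h⁻¹ v) = v := fun h v => by
    rw [← Module.End.mul_apply, ← map_mul, mul_inv_cancel, map_one, Module.End.one_apply]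
  have hinvl : ∀ h (v : V), ρ h⁻¹ (ρ h v) = v := fun h v => by
    rw [← Module.End.mul_apply, ← map_mul, inv_mul_cancel, map_one, Module.End.one_apply]
  have hcc : ∀ h r, c h (c h⁻¹ r) = r := fun h r => by
    have h1 : ∀ v : V, (c h (c h⁻¹ r) - r) • v = 0 := fun v => by
      rw [sub_smul, sub_eq_zero]
      have h2 : ρ h (c h (c h⁻¹ r) • v) = ρ h (r • v) := by
        rw [← hc h (c h⁻¹ r) v]
        have h3 := hc h⁻¹ r (ρ h v)
        rw [hinvl] at h3
        rw [h3, hinvr]
      have h4 := congrArg (ρ h⁻¹) h2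
      rwa [hinvl, hinvl] at h4
    exact sub_eq_zero.1 (hf _ h1)
  have hsurj : ∀ h, Function.Surjective (c h) := fun h r => ⟨c h⁻¹ r, hcc h r⟩
  haveI := hirr.1
  obtain ⟨P, hP⟩ := associatedPrimes.nonempty R V
  rw [AssociatedPrimes.mem_iff, isAssociatedPrime_iff] at hP
  obtain ⟨hPp, x, hx⟩ := hP
  haveI := hPp
  have hPm : P.IsMaximal := inferInstance
  have hxP : x ∈ U4tor k V P := U4_mem.2 fun r hr => by
    rw [hx, Submodule.mem_colon_singleton] at hr
    simpa using hr
  have hx0 : x ≠ 0 := fun h0 => by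
    refine hPp.ne_top ?_
    rw [Ideal.eq_top_iff_one, hx, Submodule.mem_colon_singleton, h0]
    simp
  have hmap : ∀ h, (U4tor k V P).map (ρ h) = U4tor k V (P.comap (c h)) := fun h => by
    apply le_antisymm
    · rintro _ ⟨v, hv, rfl⟩
      refine U4_mem.2 fun r hr => ?_
      rw [hc h r v, U4_mem.1 hv (c h r) hr, map_zero]
    · intro w hw
      refine ⟨ρ h⁻¹ w, U4_mem.2 fun s hs => ?_, hinvr h w⟩
      obtain ⟨r, rfl⟩ := hsurj h s
      have h1 := U4_mem.1 hw r hs
      rw [← hinvr h w, hc h r] at h1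
      have h2 := congrArg (ρ h⁻¹) h1
      rwa [hinvl, map_zero] at h2
  refine ⟨U4tor k V P, fun h0 => ?_, fun h1 => ?_, ?_, ?_, ?_⟩
  · rw [h0, Submodule.mem_bot] at hxP
    exact hx0 hxP
  · apply hR
    have hP0 : P = ⊥ := by
      rw [eq_bot_iff]
      intro r hr
      rw [Ideal.mem_bot]
      refine hf r fun v => ?_
      have hv : v ∈ U4tor k V P := by rw [h1]; trivial
      exact U4_mem.1 hv r hr
    refine ⟨⟨0, 1, fun h01 => ?_⟩, mul_comm, fun {a} ha => ?_⟩
    · refine hPp.ne_top ?_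
      rw [Ideal.eq_top_iff_one, ← h01]
      exact P.zero_mem
    · have ha' : a ∉ P := by
        rw [hP0, Ideal.mem_bot]
        exact ha
      obtain ⟨y, i, hi, h2⟩ := hPm.exists_inv ha'
      rw [hP0, Ideal.mem_bot] at hi
      rw [hi, add_zero] at h2
      exact ⟨y, by rw [mul_comm]; exact h2⟩
  · rintro W ⟨h, rfl⟩ r v hv
    rw [hmap] at hv ⊢
    refine U4_mem.2 fun s hs => ?_
    rw [smul_smul, mul_comm, ← smul_smul, U4_mem.1 hv s hs, smul_zero]
  · haveI : Finite {W : Submodule k V // ∃ h, W = (U4tor k V P).map (ρ h)} := by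
      haveI : Finite (Submodule k V) :=
        Finite.of_injective (fun W : Submodule k V => (W : Set V)) SetLike.coe_injective
      infer_instance
    choose g hg using fun W : {W : Submodule k V // ∃ h, W = (U4tor k V P).map (ρ h)} => W.2
    have h1 := U4_indep (k := k) (V := V) (fun W => P.comap (c (g W)))
      (fun W => Ideal.comap_isMaximal_of_surjective _ (hsurj _)) (fun W W' hne h2 => by
        refine hne (Subtype.ext ?_)
        rw [hg W, hg W', hmap, hmap, h2])
    convert h1 using 2 with W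
    rw [← hmap, ← hg]
  · rcases hirr.2 (⨆ W : {W : Submodule k V // ∃ h, W = (U4tor k V P).map (ρ h)},
      (W : Submodule k V)) (fun h v hv => by
        have h1 : (⨆ W : {W : Submodule k V // ∃ h, W = (U4tor k V P).map (ρ h)},
            (W : Submodule k V)).map (ρ h) ≤
            ⨆ W : {W : Submodule k V // ∃ h, W = (U4tor k V P).map (ρ h)},
              (W : Submodule k V) := by
          rw [Submodule.map_iSup]
          refine iSup_le fun W => ?_
          obtain ⟨W, h', rfl⟩ := W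
          refine le_iSup_of_le ⟨_, h * h', rfl⟩ (le_of_eq ?_)
          show Submodule.map (ρ h) (Submodule.map (ρ h') (U4tor k V P)) =
            Submodule.map (ρ (h * h')) (U4tor k V P)
          rw [map_mul]
          exact (Submodule.map_comp _ _ _).symm
        exact h1 ⟨v, hv, rfl⟩) with h1 | h1
    · have h2 : x ∈ ⨆ W : {W : Submodule k V // ∃ h, W = (U4tor k V P).map (ρ h)},
          (W : Submodule k V) := by
        refine (le_iSup_of_le (f := fun W : {W : Submodule k V // ∃ h,
          W = (U4tor k V P).map (ρ h)} => (W : Submodule k V)) ⟨_, 1, rfl⟩ le_rfl) ?_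
        refine ⟨x, hxP, ?_⟩
        rw [map_one, Module.End.one_apply]
      rw [h1, Submodule.mem_bot] at h2
      exact absurd h2 hx0
    · exact h1

/-- The translates of a subspace. -/
private abbrev U4X (ρ : Representation k H V) (W0 : Submodule k V) : Type :=
  {W : Submodule k V // ∃ h, W = W0.map (ρ h)}

private theorem U4_map_mul (ρ : Representation k H V) (W : Submodule k V) (h h' : H) :
    W.map (ρ (h * h')) = (W.map (ρ h')).map (ρ h) := by
  rw [map_mul]
  exact Submodule.map_comp _ _ _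

/-- The action on the translates. -/
private abbrev U4act (ρ : Representation k H V) (W0 : Submodule k V) : MulAction H (U4X ρ W0) where
  smul h W := ⟨W.1.map (ρ h), by
    obtain ⟨W, h', rfl⟩ := W
    exact ⟨h * h', (U4_map_mul ρ W0 h h').symm⟩⟩
  one_smul W := Subtype.ext (by
    show W.1.map (ρ 1) = W.1
    rw [map_one]
    exact Submodule.map_id _)
  mul_smul h h' W := Subtype.ext (U4_map_mul ρ W.1 h h')

end Core

private theorem U4_glue {p : ℕ} [Fact p.Prime]
    (H : Type) [Group H] [Finite H] (V : Type) [AddCommGroup V] [Module (ZMod p) V] [Finite V]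
    (ρ : Representation (ZMod p) H V) (hH : Sol H) (hinj : Function.Injective ρ) (hirr : Irr ρ)
    (W0 : Submodule (ZMod p) V) (h0 : W0 ≠ ⊥) (h1 : W0 ≠ ⊤)
    (hind : iSupIndep (fun W : U4X ρ W0 => (W : Submodule (ZMod p) V)))
    (hsup : (⨆ W : U4X ρ W0, (W : Submodule (ZMod p) V)) = ⊤) :
    ∃ (K : Subgroup H) (_ : K.Normal) (X : Type) (_ : Finite X) (_ : MulAction (H ⧸ K) X)
      (H1 : Type) (_ : Group H1) (_ : Finite H1) (W : Type) (_ : AddCommGroup W)
      (_ : Module (ZMod p) W) (_ : Finite W) (σ : Representation (ZMod p) H1 W),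
      2 ≤ Nat.card X ∧
      Module.finrank (ZMod p) V = Nat.card X * Module.finrank (ZMod p) W ∧
      (∀ h : H ⧸ K, (∀ x : X, h • x = x) → h = 1) ∧ MulAction.IsPretransitive (H ⧸ K) X ∧
      Sol H1 ∧ Function.Injective σ ∧ Irr σ ∧
      ∀ s, Ser s (⊤ : Subgroup H1) = ⊥ → Ser s (⊤ : Subgroup K) = ⊥ := by
  classical
  have hfd : Module.Finite (ZMod p) V := Module.Finite.of_finite
  have hfS : Finite (Submodule (ZMod p) V) :=
    Finite.of_injective (fun W : Submodule (ZMod p) V => (W : Set V)) SetLike.coe_injective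
  have hfX : Finite (U4X ρ W0) := inferInstance
  haveI : Fintype (U4X ρ W0) := Fintype.ofFinite _
  letI := U4act ρ W0
  have hsm : ∀ (h : H) (W : U4X ρ W0), ((h • W : U4X ρ W0) : Submodule (ZMod p) V) =
    W.1.map (ρ h) := fun _ _ => rfl
  have hmm : ∀ (h h' : H) (v : V), ρ h (ρ h' v) = ρ (h * h') v := fun h h' v => by
    rw [map_mul, Module.End.mul_apply]
  have hone : ∀ v : V, ρ 1 v = v := fun v => by rw [map_one, Module.End.one_apply]
  have hinjr : ∀ h, Function.Injective (ρ h) := fun h => by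
    intro v w hvw
    have h3 := congrArg (ρ h⁻¹) hvw
    rwa [hmm, hmm, inv_mul_cancel, hone, hone] at h3
  have hdim : ∀ W : U4X ρ W0, Module.finrank (ZMod p) W.1 = Module.finrank (ZMod p) W0 := by
    rintro ⟨W, h, rfl⟩
    exact LinearEquiv.finrank_eq (Submodule.equivMapOfInjective (ρ h) (hinjr h) W0).symm
  have hW1 : W0.map (ρ 1) = W0 := by
    rw [map_one]
    exact Submodule.map_id _
  set φ := MulAction.toPermHom H (U4X ρ W0) with hφ
  letI : MulAction (H ⧸ φ.ker) (U4X ρ W0) :=
    MulAction.compHom (U4X ρ W0) (QuotientGroup.kerLift φ)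
  -- the stabiliser of the block
  let x0 : U4X ρ W0 := ⟨W0, 1, hW1.symm⟩
  let S : Subgroup H := MulAction.stabilizer H x0
  have hS : ∀ h ∈ S, W0.map (ρ h) = W0 := fun h hh => by
    have h3 : h • x0 = x0 := hh
    have h4 := congrArg (fun W : U4X ρ W0 => W.1) h3
    exact h4
  have hS' : ∀ h, W0.map (ρ h) = W0 → h ∈ S := fun h hh => by
    show h • x0 = x0
    exact Subtype.ext hh
  have hSW : ∀ (g : S), ∀ v ∈ W0, resrep ρ S g v ∈ W0 := fun g v hv => by
    have h5 := hS g.1 g.2
    have h6 : ρ g.1 v ∈ W0.map (ρ g.1) := ⟨v, hv, rfl⟩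
    rw [h5] at h6
    exact h6
  let τ : Representation (ZMod p) S W0 := subrep (resrep ρ S) W0 hSW
  have hτ : ∀ (g : S) (w : W0), ((τ g w : W0) : V) = ρ g.1 w.1 := fun _ _ => rfl
  let σ : Representation (ZMod p) (S ⧸ MonoidHom.ker τ) W0 :=
    QuotientGroup.lift (MonoidHom.ker τ) τ (fun x hx => hx)
  have hσ : ∀ x, σ (QuotientGroup.mk' (MonoidHom.ker τ) x) = τ x := fun _ => rfl
  have hKS : φ.ker ≤ S := fun g hg => by
    have h3 : φ g = 1 := hg
    have h4 := congrArg (fun e : Equiv.Perm (U4X ρ W0) => e x0) h3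
    exact h4
  have hKn : (φ.ker).Normal := inferInstance
  refine ⟨φ.ker, hKn, U4X ρ W0, hfX, inferInstance, S ⧸ MonoidHom.ker τ, inferInstance,
    inferInstance, W0, inferInstance, inferInstance, inferInstance, σ, ?_, ?_, ?_, ?_, ?_, ?_, ?_,
    fun s hs => ?_⟩
  · by_contra hlt
    have hle : Nat.card (U4X ρ W0) ≤ 1 := by omega
    have hss : Subsingleton (U4X ρ W0) := (Finite.card_le_one_iff_subsingleton).1 hle
    apply h1
    rw [eq_top_iff, ← hsup]
    refine iSup_le fun W => ?_
    have h4 : W = x0 := Subsingleton.elim _ _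
    rw [h4]
  · have h3 := DirectSum.isInternal_submodule_of_iSupIndep_of_iSup_eq_top hind hsup
    have h4 := (LinearEquiv.ofBijective (DirectSum.coeLinearMap
      (fun W : U4X ρ W0 => (W : Submodule (ZMod p) V))) h3).finrank_eq
    rw [← h4, Module.finrank_directSum, Finset.sum_congr rfl fun W _ => hdim W, Finset.sum_const,
      Finset.card_univ, smul_eq_mul, Nat.card_eq_fintype_card]
  · intro h hh
    refine QuotientGroup.kerLift_injective φ ?_
    rw [map_one]
    refine Equiv.ext fun W => ?_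
    exact hh W
  · refine ⟨fun W W' => ?_⟩
    obtain ⟨W, h, rfl⟩ := W
    obtain ⟨W', h', rfl⟩ := W'
    refine ⟨QuotientGroup.mk' φ.ker (h' * h⁻¹), ?_⟩
    refine Subtype.ext ?_
    show (W0.map (ρ h)).map (ρ (h' * h⁻¹)) = W0.map (ρ h')
    rw [← U4_map_mul, inv_mul_cancel_right]
  · exact cls_sol.of_surj (QuotientGroup.mk' (MonoidHom.ker τ)) (QuotientGroup.mk'_surjective _)
      (cls_sol.of_inj S.subtype (Subgroup.subtype_injective _) hH)
  · intro a b hab
    obtain ⟨a, rfl⟩ := QuotientGroup.mk'_surjective _ a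
    obtain ⟨b, rfl⟩ := QuotientGroup.mk'_surjective _ b
    rw [hσ, hσ] at hab
    rw [QuotientGroup.mk'_apply, QuotientGroup.mk'_apply, QuotientGroup.eq]
    show τ (a⁻¹ * b) = 1
    rw [map_mul, ← hab, ← map_mul, inv_mul_cancel, map_one]
  · -- irreducibility
    refine ⟨Submodule.nontrivial_iff_ne_bot.2 h0, fun U hU => ?_⟩
    have hUS : ∀ (g : H), g ∈ S → ∀ u : W0, u ∈ U → ρ g u.1 ∈ U.map W0.subtype := by
      intro g hg u hu
      have h3 := hU (QuotientGroup.mk' (MonoidHom.ker τ) ⟨g, hg⟩) u hu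
      rw [hσ] at h3
      exact ⟨_, h3, rfl⟩
    have hUW : U.map W0.subtype ≤ W0 := Submodule.map_subtype_le _ _
    rcases hirr.2 (⨆ h : H, (U.map W0.subtype).map (ρ h)) (fun h v hv => by
        have h3 : (⨆ h : H, (U.map W0.subtype).map (ρ h)).map (ρ h) ≤
            ⨆ h : H, (U.map W0.subtype).map (ρ h) := by
          rw [Submodule.map_iSup]
          refine iSup_le fun h' => ?_
          rw [← U4_map_mul]
          exact le_iSup (fun h : H => (U.map W0.subtype).map (ρ h)) (h * h')
        exact h3 ⟨v, hv, rfl⟩) with h3 | h3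
    · left
      rw [eq_bot_iff]
      intro u hu
      have h4 : u.1 ∈ ⨆ h : H, (U.map W0.subtype).map (ρ h) := by
        refine (le_iSup (fun h : H => (U.map W0.subtype).map (ρ h)) 1) ?_
        exact ⟨u.1, ⟨u, hu, rfl⟩, hone _⟩
      rw [h3, Submodule.mem_bot] at h4
      rw [Submodule.mem_bot]
      exact Subtype.ext h4
    · right
      rw [eq_top_iff]
      intro w _
      have h4 : (⊤ : Submodule (ZMod p) V) ≤ U.map W0.subtype ⊔
          ⨆ (W : U4X ρ W0) (_ : W ≠ x0), (W : Submodule (ZMod p) V) := by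
        rw [← h3]
        refine iSup_le fun h => ?_
        by_cases hh : h ∈ S
        · refine le_trans ?_ le_sup_left
          rintro _ ⟨_, ⟨u, hu, rfl⟩, rfl⟩
          exact hUS h hh u hu
        · refine le_trans ?_ le_sup_right
          have h5 : (⟨W0.map (ρ h), h, rfl⟩ : U4X ρ W0) ≠ x0 := fun h6 => by
            exact hh (hS' h (congrArg (fun W : U4X ρ W0 => W.1) h6))
          refine le_trans (Submodule.map_mono hUW) ?_
          exact le_iSup₂_of_le (f := fun (W : U4X ρ W0) (_ : W ≠ x0) =>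
            (W : Submodule (ZMod p) V)) ⟨W0.map (ρ h), h, rfl⟩ h5 le_rfl
      obtain ⟨a, ha, r, hr, har⟩ := Submodule.mem_sup.1 (h4 (Submodule.mem_top (x := w.1)))
      have h5 := hind x0
      rw [Submodule.disjoint_def] at h5
      have h6 : r = 0 := by
        refine h5 r ?_ hr
        have h7 : r = w.1 - a := by rw [← har]; abel
        rw [h7]
        exact Submodule.sub_mem _ w.2 (hUW ha)
      rw [h6, add_zero] at har
      obtain ⟨u, hu, hua⟩ := ha
      have h7 : u = w := Subtype.ext (hua.trans har)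
      rw [← h7]
      exact hu
  · -- the kernel
    refine ser_of_homs s fun g hg => ?_
    -- a translate on which `g` is not trivial
    obtain ⟨h, v, hv, hne⟩ : ∃ h : H, ∃ v ∈ W0, ρ g.1 (ρ h v) ≠ ρ h v := by
      by_contra hh
      push Not at hh
      refine hg (Subtype.ext (hinj ?_))
      rw [OneMemClass.coe_one, map_one]
      refine LinearMap.ext fun v => ?_
      rw [Module.End.one_apply]
      have h3 : (⊤ : Submodule (ZMod p) V) ≤ LinearMap.ker (ρ g.1 - 1) := by
        rw [← hsup]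
        refine iSup_le fun W w hw => ?_
        obtain ⟨W, h, rfl⟩ := W
        obtain ⟨v, hv, rfl⟩ := hw
        rw [LinearMap.mem_ker, LinearMap.sub_apply, Module.End.one_apply, hh h v hv, sub_self]
      have h4 := h3 (Submodule.mem_top (x := v))
      rw [LinearMap.mem_ker, LinearMap.sub_apply, Module.End.one_apply] at h4
      exact sub_eq_zero.1 h4
    have hc : ∀ x : φ.ker, h⁻¹ * x.1 * h ∈ φ.ker := fun x => by
      have h3 := hKn.conj_mem x.1 x.2 h⁻¹
      rwa [inv_inv] at h3
    let f : φ.ker →* S :=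
      { toFun := fun x => ⟨h⁻¹ * x.1 * h, hKS (hc x)⟩
        map_one' := Subtype.ext (by
          show h⁻¹ * 1 * h = 1
          group)
        map_mul' := fun x y => Subtype.ext (by
          show h⁻¹ * (x.1 * y.1) * h = h⁻¹ * x.1 * h * (h⁻¹ * y.1 * h)
          group) }
    have hf : ∀ x : φ.ker, (f x).1 = h⁻¹ * x.1 * h := fun _ => rfl
    refine ⟨S ⧸ MonoidHom.ker τ, inferInstance, (QuotientGroup.mk' _).comp f, fun h3 => ?_, hs⟩
    have h4 : f g ∈ MonoidHom.ker τ := (QuotientGroup.eq_one_iff (f g)).1 h3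
    have h5 : τ (f g) = 1 := h4
    have h6 := congrArg (fun e : Module.End (ZMod p) W0 => ((e ⟨v, hv⟩ : W0) : V)) h5
    have h7 : ρ (h⁻¹ * g.1 * h) v = v := h6
    apply hne
    have h8 := congrArg (ρ h) h7
    rw [hmm] at h8
    rw [hmm, ← h8]
    congr 2
    group

/-- Case I (variant of `lin_caseI`): the blocks are permuted transitively; the kernel `K` acts on
all blocks in conjugate ways, inside the irreducible action of the stabiliser of a block. -/
theorem caseI_ty {p : ℕ} [Fact p.Prime] (H : Type) [Group H] [Finite H] (V : Type)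
    [AddCommGroup V] [Module (ZMod p) V] [Finite V] (ρ : Representation (ZMod p) H V)
    (hH : Sol H) (hinj : Function.Injective ρ) (hirr : Irr ρ)
    (A : Subgroup H) [A.Normal] (hA : ∀ x ∈ A, ∀ y ∈ A, x * y = y * x)
    (hE : ¬ IsField (alg ρ A)) :
    ∃ (K : Subgroup H) (_ : K.Normal) (X : Type) (_ : Finite X) (_ : MulAction (H ⧸ K) X)
      (H1 : Type) (_ : Group H1) (_ : Finite H1) (W : Type) (_ : AddCommGroup W)
      (_ : Module (ZMod p) W) (_ : Finite W) (σ : Representation (ZMod p) H1 W),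
      2 ≤ Nat.card X ∧
      Module.finrank (ZMod p) V = Nat.card X * Module.finrank (ZMod p) W ∧
      (∀ h : H ⧸ K, (∀ x : X, h • x = x) → h = 1) ∧ MulAction.IsPretransitive (H ⧸ K) X ∧
      Sol H1 ∧ Function.Injective σ ∧ Irr σ ∧
      ∀ s, Ser s (⊤ : Subgroup H1) = ⊥ → Ser s (⊤ : Subgroup K) = ⊥ := by
  have hcomm : ∀ a ∈ ρ '' (A : Set H), ∀ b ∈ ρ '' (A : Set H), a * b = b * a := by
    rintro _ ⟨x, hx, rfl⟩ _ ⟨y, hy, rfl⟩
    rw [← map_mul, ← map_mul, hA x hx y hy]
  haveI : IsMulCommutative (alg ρ A) := Algebra.isMulCommutative_adjoin (ZMod p) hcomm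
  open scoped IsMulCommutative in
  letI : CommRing (alg ρ A) := inferInstance
  haveI : Finite (Module.End (ZMod p) V) := DFunLike.finite _
  haveI : Finite (alg ρ A) := inferInstance
  have hconj : ∀ h : H, ∀ e ∈ alg ρ A, ρ h⁻¹ * e * ρ h ∈ alg ρ A := fun h => by
    let C : Module.End (ZMod p) V →ₐ[ZMod p] Module.End (ZMod p) V :=
      { toFun := fun e => ρ h⁻¹ * e * ρ h
        map_one' := by
          rw [mul_one, ← map_mul, inv_mul_cancel, map_one]
        map_mul' := fun e e' => by
          have h1 : ρ h * ρ h⁻¹ = 1 := by rw [← map_mul, mul_inv_cancel, map_one]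
          calc ρ h⁻¹ * (e * e') * ρ h = ρ h⁻¹ * e * 1 * e' * ρ h := by noncomm_ring
            _ = ρ h⁻¹ * e * (ρ h * ρ h⁻¹) * e' * ρ h := by rw [h1]
            _ = ρ h⁻¹ * e * ρ h * (ρ h⁻¹ * e' * ρ h) := by noncomm_ring
        map_zero' := by rw [mul_zero, zero_mul]
        map_add' := fun e e' => by noncomm_ring
        commutes' := fun c => by
          have h1 : ρ h⁻¹ * ρ h = 1 := by rw [← map_mul, inv_mul_cancel, map_one]
          rw [← Algebra.commutes, mul_assoc, h1, mul_one] }
    have h2 : alg ρ A ≤ (alg ρ A).comap C := by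
      refine Algebra.adjoin_le ?_
      rintro _ ⟨a, ha, rfl⟩
      show ρ h⁻¹ * ρ a * ρ h ∈ alg ρ A
      rw [← map_mul, ← map_mul]
      refine Algebra.subset_adjoin ⟨_, ?_, rfl⟩
      have := ‹A.Normal›.conj_mem a ha h⁻¹
      rwa [inv_inv] at this
    exact fun e he => h2 he
  let c : H → alg ρ A →+* alg ρ A := fun h =>
    { toFun := fun e => ⟨ρ h⁻¹ * e.1 * ρ h, hconj h e.1 e.2⟩
      map_one' := Subtype.ext (by
        show ρ h⁻¹ * 1 * ρ h = 1
        rw [mul_one, ← map_mul, inv_mul_cancel, map_one])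
      map_mul' := fun e e' => Subtype.ext (by
        have h1 : ρ h * ρ h⁻¹ = 1 := by rw [← map_mul, mul_inv_cancel, map_one]
        show ρ h⁻¹ * (e.1 * e'.1) * ρ h = ρ h⁻¹ * e.1 * ρ h * (ρ h⁻¹ * e'.1 * ρ h)
        calc ρ h⁻¹ * (e.1 * e'.1) * ρ h = ρ h⁻¹ * e.1 * 1 * e'.1 * ρ h := by noncomm_ring
          _ = ρ h⁻¹ * e.1 * (ρ h * ρ h⁻¹) * e'.1 * ρ h := by rw [h1]
          _ = ρ h⁻¹ * e.1 * ρ h * (ρ h⁻¹ * e'.1 * ρ h) := by noncomm_ring)
      map_zero' := Subtype.ext (by
        show ρ h⁻¹ * 0 * ρ h = 0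
        rw [mul_zero, zero_mul])
      map_add' := fun e e' => Subtype.ext (by
        show ρ h⁻¹ * (e.1 + e'.1) * ρ h = ρ h⁻¹ * e.1 * ρ h + ρ h⁻¹ * e'.1 * ρ h
        noncomm_ring) }
  have hc : ∀ h (r : alg ρ A) (v : V), r • ρ h v = ρ h (c h r • v) := fun h r v => by
    show r.1 (ρ h v) = ρ h ((ρ h⁻¹ * r.1 * ρ h) v)
    rw [Module.End.mul_apply, Module.End.mul_apply, ← Module.End.mul_apply (ρ h), ← map_mul,
      mul_inv_cancel, map_one, Module.End.one_apply]
  have hf : ∀ r : alg ρ A, (∀ v : V, r • v = 0) → r = 0 := fun r hr =>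
    Subtype.ext (LinearMap.ext fun v => hr v)
  obtain ⟨W0, h0, h1, _, hind, hsup⟩ := U4_core (k := ZMod p) ρ hirr hf c hc hE
  exact U4_glue H V ρ hH hinj hirr W0 h0 h1 hind hsup

end Pool.Agent.Helper94.RS4
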