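import Pool.Agent.Helper94.RS4.U3b
import Pool.Agent.Helper94.RS4.U4

set_option autoImplicit false

open scoped Pointwise commutatorElement

namespace Pool.Agent.Helper94.RS4

open Pool.Agent.Helper98.RS

/-! ### Elementary facts (as in `A12`) -/

private theorem u4b_triv {H : Type} [Group H] (h : ∀ g : H, g = 1) (m : ℕ) :
    derivedSeries H m = ⊥ := by
  rw [eq_bot_iff]
  intro g _
  rw [Subgroup.mem_bot]
  exact h g

private theorem u4b_abel {H : Type} [Group H] (A : Subgroup H)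
    (hA : ∀ x ∈ A, ∀ y ∈ A, x * y = y * x) : derivedSeries A 1 = ⊥ := by
  rw [derivedSeries_one, commutator_def, Subgroup.commutator_eq_bot_iff_le_centralizer]
  intro g _
  rw [Subgroup.mem_centralizer_iff]
  intro h _
  exact Subtype.ext (hA _ h.2 _ g.2)

private theorem u4b_ne_char {p : ℕ} [Fact p.Prime] (H : Type) [Group H] [Finite H] (V : Type)
    [AddCommGroup V] [Module (ZMod p) V] [Finite V] [Nontrivial V]
    (ρ : Representation (ZMod p) H V) (hinj : Function.Injective ρ) (A : Subgroup H)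
    (hE : IsField (alg ρ A)) : ¬ p ∣ Nat.card A := by
  intro hd
  obtain ⟨x, hx⟩ := exists_prime_orderOf_dvd_card' p hd
  have hx1 : x ≠ 1 := by
    rintro rfl
    rw [orderOf_one] at hx
    exact (Fact.out : p.Prime).one_lt.ne hx
  have hxp : (x : H) ^ p = 1 := by
    have : x ^ p = 1 := by rw [← hx]; exact pow_orderOf_eq_one x
    rw [← Subgroup.coe_pow, this, Subgroup.coe_one]
  apply hx1
  have hmem : ρ (x : H) ∈ alg ρ A := Algebra.subset_adjoin ⟨x, x.2, rfl⟩
  letI : Field (alg ρ A) := hE.toField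
  haveI : CharP (alg ρ A) p := charP_of_injective_algebraMap
    (algebraMap (ZMod p) (alg ρ A)).injective p
  have h1 : (⟨ρ (x : H), hmem⟩ - 1 : alg ρ A) ^ p = 0 := by
    rw [sub_pow_char, one_pow]
    have : (⟨ρ (x : H), hmem⟩ : alg ρ A) ^ p = 1 := by
      apply Subtype.ext
      rw [SubmonoidClass.coe_pow]
      show ρ (x : H) ^ p = 1
      rw [← map_pow, hxp, map_one]
    rw [this, sub_self]
  have h2 : (⟨ρ (x : H), hmem⟩ - 1 : alg ρ A) = 0 :=
    pow_eq_zero_iff (Fact.out : p.Prime).ne_zero |>.1 h1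
  have h3 : ρ (x : H) = 1 := by
    have := congrArg Subtype.val (sub_eq_zero.1 h2)
    exact this
  have h4 : (x : H) = 1 := hinj (h3.trans (map_one ρ).symm)
  exact Subtype.ext h4

/-- The three cases for an irreducible soluble linear group (variant of `A12_cases`). -/
theorem cases_ty {p : ℕ} [Fact p.Prime] (H : Type) [Group H] [Finite H] (V : Type)
    [AddCommGroup V] [Module (ZMod p) V] [Finite V] (ρ : Representation (ZMod p) H V)
    (hH : Sol H) (hinj : Function.Injective ρ) (hirr : Irr ρ) :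
    (∃ (K : Subgroup H) (_ : K.Normal) (X : Type) (_ : Finite X) (_ : MulAction (H ⧸ K) X)
      (H1 : Type) (_ : Group H1) (_ : Finite H1) (W : Type) (_ : AddCommGroup W)
      (_ : Module (ZMod p) W) (_ : Finite W) (σ : Representation (ZMod p) H1 W),
      2 ≤ Nat.card X ∧
      Module.finrank (ZMod p) V = Nat.card X * Module.finrank (ZMod p) W ∧
      (∀ h : H ⧸ K, (∀ x : X, h • x = x) → h = 1) ∧ MulAction.IsPretransitive (H ⧸ K) X ∧
      Sol H1 ∧ Function.Injective σ ∧ Irr σ ∧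
      ∀ s, Ser s (⊤ : Subgroup H1) = ⊥ → Ser s (⊤ : Subgroup K) = ⊥) ∨
    derivedSeries H 2 = ⊥ ∨
    ∃ a' : ℕ, a' ≤ Module.finrank (ZMod p) V ∧ 2 ≤ a' ∧
      ∀ m, (∀ s t : ℕ, s.Prime → s ≠ p → 1 ≤ t → s ^ t ≤ a' ^ 2 → LinDL Sol s t m) →
        derivedSeries H (m + 3) = ⊥ := by
  classical
  have hnt : Nontrivial V := hirr.1
  by_cases hall : ∀ A : Subgroup H, A.Normal → (∀ x ∈ A, ∀ y ∈ A, x * y = y * x) →
      IsField (alg ρ A)
  swap
  · push Not at hall
    obtain ⟨A, hAn, hA, hE⟩ := hall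
    exact Or.inl (caseI_ty H V ρ hH hinj hirr A hA hE)
  right
  have hfs : Finite (Subgroup H) := inferInstance
  obtain ⟨A, ⟨hAn, hA⟩, hmax'⟩ := (wellFounded_gt (α := Subgroup H)).has_min
    {B : Subgroup H | B.Normal ∧ ∀ x ∈ B, ∀ y ∈ B, x * y = y * x} ⟨⊥, inferInstance, by
      intro x hx y hy
      rw [Subgroup.mem_bot] at hx hy
      rw [hx, hy]⟩
  have hmax : ∀ B : Subgroup H, B.Normal → A ≤ B → (∀ x ∈ B, ∀ y ∈ B, x * y = y * x) →
      B = A := by
    intro B hBn hAB hB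
    by_contra hne
    exact hmax' B ⟨hBn, hB⟩ (lt_of_le_of_ne hAB (Ne.symm hne))
  have hE : IsField (alg ρ A) := hall A hAn hA
  obtain ⟨hq, hq1⟩ := field_cent H V ρ hinj A hE
  by_cases hC : Subgroup.centralizer (A : Set H) = A
  · left
    have h1 : derivedSeries (Subgroup.centralizer (A : Set H)) 1 = ⊥ := by
      apply u4b_abel
      rw [hC]
      exact hA
    exact dl_ext _ 1 1 hq h1
  · right
    obtain ⟨T, hT⟩ := exists_soc hH A hA hmax hC
    obtain ⟨a', hd, hcard⟩ := soc_card H V ρ hinj A hE T hT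
    have hr1 : A.relIndex T ≠ 1 := by
      intro h
      rw [Subgroup.relIndex_eq_one] at h
      exact hT.ne (le_antisymm hT.le h)
    have hr0 : A.relIndex T ≠ 0 := Subgroup.index_ne_zero_of_finite
    have ha' : 2 ≤ a' := by
      by_contra hc
      have h1 : a' ^ 2 ≤ 1 ^ 2 := Nat.pow_le_pow_left (by omega) _
      rw [one_pow] at h1
      omega
    have hfin : Module.Finite (ZMod p) V := Module.Finite.of_finite
    have hpos : 0 < Module.finrank (ZMod p) V := Module.finrank_pos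
    have he : 1 ≤ Module.finrank (ZMod p) (alg ρ A) := by
      by_contra hc
      have h0 : Module.finrank (ZMod p) (alg ρ A) = 0 := by omega
      rw [h0, zero_mul] at hd
      omega
    refine ⟨a', ?_, ha', ?_⟩
    · rw [hd]
      exact Nat.le_mul_of_pos_left _ he
    · intro m hm
      have h1 : derivedSeries (Subgroup.centralizer (A : Set H)) (m + 2) = ⊥ := by
        refine soc_dl cls_sol hH A T hT ?_ m ?_
        · intro c hc h
          exact soc_self H V ρ hinj A hE T hT c hc h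
        · intro s t hs hsd hst
          rcases Nat.eq_zero_or_pos t with ht | ht
          · subst ht
            exact lin_mono (lin_zero s) le_rfl (Nat.zero_le _)
          · refine hm s t hs ?_ ht (hst.trans hcard)
            rintro rfl
            exact u4b_ne_char H V ρ hinj A hE (soc_prime A T hT s hs hsd)
      have h2 := dl_ext _ 1 (m + 2) hq h1
      rw [show m + 3 = 1 + (m + 2) by omega]
      exact h2

private theorem u4b_sixteen (T : ℕ) (h : 16 ≤ T) : T ^ 8 ≤ 2 ^ (2 * T) := by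
  induction T, h using Nat.le_induction with
  | base => norm_num
  | succ n hn ih =>
    have h1 : (16 * (n + 1)) ^ 8 ≤ (17 * n) ^ 8 := Nat.pow_le_pow_left (by omega) _
    rw [mul_pow, mul_pow] at h1
    have h2 : (2 : ℕ) ^ (2 * (n + 1)) = 4 * 2 ^ (2 * n) := by
      rw [mul_add, pow_add]
      ring
    rw [h2]
    norm_num at h1
    omega

theorem t4_num (T a : ℕ) (h : 2 ^ T ≤ a ^ 2) : T ^ 4 ≤ 8 * a ^ 3 := by
  -- `T ^ 8 ≤ 64 * 2 ^ (3 T) ≤ 64 * a ^ 6`
  have h1 : T ^ 8 ≤ 64 * 2 ^ (3 * T) := by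
    rcases Nat.lt_or_ge T 16 with h2 | h2
    · interval_cases T <;> norm_num
    · refine (u4b_sixteen T h2).trans ?_
      have : (2 : ℕ) ^ (2 * T) ≤ 2 ^ (3 * T) := Nat.pow_le_pow_right (by norm_num) (by omega)
      omega
  have h2 : 2 ^ (3 * T) ≤ a ^ 6 := by
    calc 2 ^ (3 * T) = (2 ^ T) ^ 3 := by rw [mul_comm, pow_mul]
      _ ≤ (a ^ 2) ^ 3 := Nat.pow_le_pow_left h 3
      _ = a ^ 6 := by rw [← pow_mul]
  have h3 : (T ^ 4) ^ 2 ≤ (8 * a ^ 3) ^ 2 := by
    calc (T ^ 4) ^ 2 = T ^ 8 := by rw [← pow_mul]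
      _ ≤ 64 * 2 ^ (3 * T) := h1
      _ ≤ 64 * a ^ 6 := Nat.mul_le_mul_left _ h2
      _ = (8 * a ^ 3) ^ 2 := by rw [mul_pow, ← pow_mul]; norm_num
  exact (Nat.pow_le_pow_iff_left (by norm_num)).1 h3

theorem m4_num (M T : ℕ) (h : 9 ^ M ≤ 9 ^ 128 * T ^ 5) (hT : 1 ≤ T) :
    4 ^ M ≤ 4 ^ 128 * T ^ 4 := by
  have hT4 : 1 ≤ T ^ 4 := Nat.one_le_pow _ _ hT
  rcases Nat.lt_or_ge M 128 with hM | hM
  · calc 4 ^ M ≤ 4 ^ 128 := Nat.pow_le_pow_right (by norm_num) hM.le
      _ ≤ 4 ^ 128 * T ^ 4 := Nat.le_mul_of_pos_right _ (by omega)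
  · obtain ⟨k, rfl⟩ := Nat.exists_eq_add_of_le hM
    rw [pow_add] at h ⊢
    have h1 : 9 ^ k ≤ T ^ 5 := Nat.le_of_mul_le_mul_left h (by positivity)
    refine Nat.mul_le_mul_left _ ?_
    have h2 : (4 ^ k) ^ 5 ≤ (T ^ 4) ^ 5 := by
      calc (4 ^ k) ^ 5 = (4 ^ 5) ^ k := by rw [← pow_mul, ← pow_mul, mul_comm]
        _ ≤ (9 ^ 4) ^ k := Nat.pow_le_pow_left (by norm_num) k
        _ = (9 ^ k) ^ 4 := by rw [← pow_mul, ← pow_mul, mul_comm]
        _ ≤ (T ^ 5) ^ 4 := Nat.pow_le_pow_left h1 4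
        _ = (T ^ 4) ^ 5 := by rw [← pow_mul, ← pow_mul]
    exact (Nat.pow_le_pow_iff_left (by norm_num)).1 h2

private theorem u4b_all {p : ℕ} [Fact p.Prime] : ∀ (d : ℕ) (H : Type) [Group H] [Finite H]
    (V : Type) [AddCommGroup V] [Module (ZMod p) V] [Finite V] (ρ : Representation (ZMod p) H V),
    Sol H → Function.Injective ρ → Irr ρ → Module.finrank (ZMod p) V = d →
    ∃ s : List Bool, Ser s (⊤ : Subgroup H) = ⊥ ∧ 2 ^ bits s ≤ 2 ^ 265 * d ^ 3 := by
  intro d
  induction d using Nat.strong_induction_on with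
  | _ d ih =>
    intro H _ _ V _ _ _ ρ hH hinj hirr hd
    have hnt : Nontrivial V := hirr.1
    have hfin : Module.Finite (ZMod p) V := Module.Finite.of_finite
    have hpos : 0 < Module.finrank (ZMod p) V := Module.finrank_pos
    rw [hd] at hpos
    have hd3 : 1 ≤ d ^ 3 := Nat.one_le_pow _ _ hpos
    rcases cases_ty H V ρ hH hinj hirr with
      ⟨K, hK, X, hXf, hXa, H1, hH1g, hH1f, W, hW1, hW2, hW3, σ, hX2, hfr, hf, ht, hH1, hσ, hσi,
        hs⟩ | h2 | ⟨a', ha'd, ha', hm⟩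
    · have hWn : Nontrivial W := hσi.1
      have hWfin : Module.Finite (ZMod p) W := Module.Finite.of_finite
      have hWpos : 0 < Module.finrank (ZMod p) W := Module.finrank_pos
      rw [hd] at hfr
      have hlt : Module.finrank (ZMod p) W < d := by
        rw [hfr]
        nlinarith
      obtain ⟨t, ht1, ht2⟩ := ih _ hlt H1 W σ hH1 hσ hσi rfl
      have hsol : Sol (H ⧸ K) := cls_sol.of_surj (QuotientGroup.mk' K)
        (QuotientGroup.mk'_surjective K) hH
      obtain ⟨s, hs1, hs2⟩ := perm_ty (H ⧸ K) X hsol hf ht (by omega)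
      refine ⟨s ++ t, ser_ext K s t hs1 (hs t ht1), ?_⟩
      rw [bits_append, pow_add]
      calc 2 ^ bits s * 2 ^ bits t ≤ Nat.card X ^ 3 *
            (2 ^ 265 * Module.finrank (ZMod p) W ^ 3) := Nat.mul_le_mul hs2 ht2
        _ = 2 ^ 265 * d ^ 3 := by rw [hfr, mul_pow]; ring
    · refine ⟨List.replicate 2 false, ?_, ?_⟩
      · rw [ser_rep]
        exact h2
      · rw [bits_rep]
        calc 2 ^ (2 * 2) ≤ 2 ^ 265 := Nat.pow_le_pow_right (by norm_num) (by norm_num)
          _ ≤ 2 ^ 265 * d ^ 3 := Nat.le_mul_of_pos_right _ (by omega)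
    · rw [hd] at ha'd
      set T := Nat.log 2 (a' ^ 2) with hT
      have ha'0 : a' ^ 2 ≠ 0 := pow_ne_zero _ (by omega)
      have hT2 : 2 ^ T ≤ a' ^ 2 := Nat.pow_log_le_self 2 ha'0
      have hT1 : 1 ≤ T := by
        rw [hT]
        refine (Nat.le_log_iff_pow_le (by norm_num) ha'0).2 ?_
        nlinarith
      set m := Nat.log 9 (9 ^ 128 * T ^ 5) with hmdef
      have hm9 : 9 ^ 128 * T ^ 5 < 9 ^ (m + 1) := Nat.lt_pow_succ_log_self (by norm_num) _
      have hm9' : 9 ^ m ≤ 9 ^ 128 * T ^ 5 := Nat.pow_log_le_self 9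
        (mul_ne_zero (pow_ne_zero _ (by norm_num)) (pow_ne_zero _ (by omega)))
      have h5 := hm m (by
        intro s t hs _ ht hst
        have h6 : t ≤ T := by
          have h7 : 2 ^ t ≤ s ^ t := Nat.pow_le_pow_left hs.two_le _
          exact (Nat.le_log_iff_pow_le (by norm_num) ha'0).2 (h7.trans hst)
        exact @lin_mono _ _ _ _ _ _ (@lin_log s T m hm9 hT1) h6 le_rfl)
      refine ⟨List.replicate (m + 3) false, ?_, ?_⟩
      · rw [ser_rep]
        exact h5
      · rw [bits_rep, pow_mul]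
        have h4 := m4_num m T hm9' hT1
        have h6 := t4_num T a' hT2
        have h7 : a' ^ 3 ≤ d ^ 3 := Nat.pow_le_pow_left ha'd 3
        have h8 : (2 : ℕ) ^ 2 = 4 := by norm_num
        rw [h8, pow_add]
        have h9 : (4 : ℕ) ^ 128 = 2 ^ 256 := by
          rw [← h8, ← pow_mul]
        calc 4 ^ m * 4 ^ 3 ≤ (4 ^ 128 * T ^ 4) * 4 ^ 3 := Nat.mul_le_mul_right _ h4
          _ ≤ (4 ^ 128 * (8 * a' ^ 3)) * 4 ^ 3 :=
              Nat.mul_le_mul_right _ (Nat.mul_le_mul_left _ h6)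
          _ ≤ (4 ^ 128 * (8 * d ^ 3)) * 4 ^ 3 :=
              Nat.mul_le_mul_right _ (Nat.mul_le_mul_left _ (Nat.mul_le_mul_left _ h7))
          _ = 2 ^ 265 * d ^ 3 := by
              rw [h9]
              have : (2 : ℕ) ^ 265 = 2 ^ 256 * (8 * 4 ^ 3) := by
                have h10 : (8 : ℕ) * 4 ^ 3 = 2 ^ 9 := by norm_num
                rw [h10, ← pow_add]
              rw [this]
              ring

/-- Irreducible soluble linear groups of degree `d` die along a list of at most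
`3 log₂ d + 265` bits. -/
theorem lin_ty {p : ℕ} [Fact p.Prime] (H : Type) [Group H] [Finite H] (V : Type)
    [AddCommGroup V] [Module (ZMod p) V] [Finite V] (ρ : Representation (ZMod p) H V)
    (hH : Sol H) (hinj : Function.Injective ρ) (hirr : Irr ρ) :
    ∃ s : List Bool, Ser s (⊤ : Subgroup H) = ⊥ ∧
      2 ^ bits s ≤ 2 ^ 265 * Module.finrank (ZMod p) V ^ 3 :=
  u4b_all _ H V ρ hH hinj hirr rfl

end Pool.Agent.Helper94.RS4
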