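import Pool.Agent.Helper94.RS4.Defs

set_option autoImplicit false

open scoped Pointwise commutatorElement

namespace Pool.Agent.Helper94.RS4

open Pool.Agent.Helper98.RS

private theorem u5_sq {G : Type} [Group G] (S : Set G) {l : ℕ} {x : G} (hx : x ∈ Bl S l) :
    x ^ 2 ∈ Bl S (2 * l) := by
  have h1 : x * x ∈ Bl S l * Bl S l := Set.mul_mem_mul hx hx
  unfold Bl at *
  rw [← pow_add, ← two_mul] at h1
  rwa [pow_two]

private theorem u5_cc {H : Type} [Group H] (x z : H) :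
    cc x z = ⁅x⁻¹, (z⁻¹ * x * z)⁻¹⁆ := by
  unfold cc
  rw [commutatorElement_def, inv_inv, inv_inv]

private theorem u5_map {G H : Type} [Group G] [Group H] (f : G →* H) (x z : G) :
    f (cc x z) = cc (f x) (f z) := by
  rw [u5_cc, u5_cc, map_commutatorElement]
  simp only [map_inv, map_mul]

private theorem u5_conj {H : Type} [Group H] (A : Subgroup H) [hA : A.Normal] {x : H} (z : H)
    (hx : x ∈ A) : z⁻¹ * x * z ∈ A := by
  have := hA.conj_mem x hx z⁻¹
  simpa using this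

private theorem u5_comm {H : Type} [Group H] (A : Subgroup H) [A.Normal] {x : H} (z : H)
    (hx : x ∈ A) : cc x z ∈ step false A := by
  rw [u5_cc]
  exact Subgroup.commutator_mem_commutator (Subgroup.inv_mem _ hx)
    (Subgroup.inv_mem _ (u5_conj A z hx))

private theorem u5_sqa {H : Type} [Group H] (A : Subgroup H) [A.Normal] {x : H} (z : H)
    (hx : x ∈ A) : cc (x ^ 2) z ∈ step true A := by
  have h := (adm_RQ A).1 x⁻¹ (Subgroup.inv_mem _ hx) (z⁻¹ * x * z)⁻¹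
    (Subgroup.inv_mem _ (u5_conj A z hx))
  have e : cc (x ^ 2) z = ⁅x⁻¹ ^ 2, (z⁻¹ * x * z)⁻¹ ^ 2⁆ := by
    rw [u5_cc]
    have e1 : (x ^ 2)⁻¹ = x⁻¹ ^ 2 := by group
    have e2 : (z⁻¹ * x ^ 2 * z)⁻¹ = (z⁻¹ * x * z)⁻¹ ^ 2 := by
      rw [pow_two, pow_two]
      group
    rw [e1, e2]
  rw [e]
  exact h

private theorem u5_sqb {H : Type} [Group H] (A : Subgroup H) [A.Normal] {x : H} (z : H)
    (hx : x ∈ A) (h2 : x ^ 2 = 1) : cc x z ∈ step true A := by
  rw [u5_cc]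
  refine (adm_RQ A).2 x⁻¹ (Subgroup.inv_mem _ hx) (z⁻¹ * x * z)⁻¹
    (Subgroup.inv_mem _ (u5_conj A z hx)) ?_ ?_
  · have e1 : x⁻¹ ^ 2 = (x ^ 2)⁻¹ := by group
    rw [e1, h2, inv_one]
    exact Subgroup.one_mem _
  · have e2 : (z⁻¹ * x * z)⁻¹ ^ 2 = z⁻¹ * (x ^ 2)⁻¹ * z := by
      rw [pow_two, pow_two]
      group
    rw [e2, h2]
    simp

private theorem u5_chain {G : Type} [Group G] (S : Set G) (N M : Subgroup G) [M.Normal]
    (lam : ℝ) (hl : 2 ≤ lam) (C0 : ℕ)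
    (hstep : ∀ (x : G) (l : ℕ), x ∉ M → x ∈ Bl S l → ∃ z, cc x z ∉ N ∧
      ∀ n : ℕ, lam ^ 2 * l + C0 ≤ (n : ℝ) → cc x z ∈ Bl S n) (s : List Bool) :
    ∀ (A : Subgroup (G ⧸ M)), A.Normal → Ser s A = ⊥ → ∀ (x : G) (l : ℕ), x ∉ M →
      QuotientGroup.mk' M x ∈ A → x ∈ Bl S l →
      ∃ y ∈ M, y ∉ N ∧ ∃ L : ℕ, (L : ℝ) + (C0 + 1) ≤ (l + (C0 + 1)) * lam ^ bits s ∧
        y ∈ Bl S L := by
  have hl0 : 0 < lam := by linarith
  have hl1 : 1 ≤ lam := by linarith
  have hC0 : (0 : ℝ) ≤ C0 := Nat.cast_nonneg _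
  -- one step
  have hone : ∀ (x : G) (l : ℕ), x ∉ M → x ∈ Bl S l → ∃ z, cc x z ∉ N ∧ ∃ L : ℕ,
      (L : ℝ) + (C0 + 1) ≤ (l + (C0 + 1)) * lam ^ 2 ∧ cc x z ∈ Bl S L := by
    intro x l hx hxl
    obtain ⟨z, hz, hn⟩ := hstep x l hx hxl
    refine ⟨z, hz, ⌈lam ^ 2 * l + C0⌉₊, ?_, hn _ (Nat.le_ceil _)⟩
    have h1 := Nat.ceil_lt_add_one (a := lam ^ 2 * l + C0) (by positivity)
    have h2 : (2 : ℝ) ≤ lam ^ 2 := by nlinarith
    have h3 : (0 : ℝ) ≤ (lam ^ 2 - 2) * (C0 + 1) := mul_nonneg (by linarith) (by linarith)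
    nlinarith [h1, h3]
  induction s with
  | nil =>
    intro A _ hs x l hxM hxA _
    exfalso
    apply hxM
    rw [ser_nil] at hs
    rw [hs, Subgroup.mem_bot] at hxA
    exact (QuotientGroup.eq_one_iff x).1 hxA
  | cons c s ih =>
    intro A hA hs x l hxM hxA hxl
    rw [ser_cons] at hs
    have hn : (step c A).Normal := ser_normal [c] A
    -- continue with a new element
    have hcont : ∀ (w : G) (k : ℕ), w ∉ N → QuotientGroup.mk' M w ∈ step c A → w ∈ Bl S k →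
        (k : ℝ) + (C0 + 1) ≤ (l + (C0 + 1)) * lam ^ (if c then 3 else 2) →
        ∃ y ∈ M, y ∉ N ∧ ∃ L : ℕ, (L : ℝ) + (C0 + 1) ≤ (l + (C0 + 1)) * lam ^ bits (c :: s) ∧
          y ∈ Bl S L := by
      intro w k hwN hwA hwk hk
      have hp : (1 : ℝ) ≤ lam ^ bits s := one_le_pow₀ hl1
      have e : (l + (C0 + 1)) * lam ^ bits (c :: s) =
          (l + (C0 + 1)) * lam ^ (if c then 3 else 2) * lam ^ bits s := by
        rw [bits_cons, pow_add, mul_assoc]
      by_cases hwM : w ∈ M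
      · refine ⟨w, hwM, hwN, k, ?_, hwk⟩
        rw [e]
        refine hk.trans ?_
        exact le_mul_of_one_le_right (by positivity) hp
      · obtain ⟨y, hyM, hyN, L, hL, hyL⟩ := ih (step c A) hn hs w k hwM hwA hwk
        refine ⟨y, hyM, hyN, L, ?_, hyL⟩
        rw [e]
        exact hL.trans (mul_le_mul_of_nonneg_right hk (by positivity))
    cases c with
    | false =>
      obtain ⟨z, hz, k, hk, hzk⟩ := hone x l hxM hxl
      refine hcont (cc x z) k hz ?_ hzk (by simpa using hk)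
      rw [u5_map]
      exact u5_comm A _ hxA
    | true =>
      by_cases h2M : x ^ 2 ∈ M
      · by_cases h2N : x ^ 2 ∈ N
        · obtain ⟨z, hz, k, hk, hzk⟩ := hone x l hxM hxl
          refine hcont (cc x z) k hz ?_ hzk ?_
          · rw [u5_map]
            refine u5_sqb A _ hxA ?_
            rw [← map_pow]
            exact (QuotientGroup.eq_one_iff _).2 h2M
          · refine hk.trans ?_
            simp only [if_true]
            exact mul_le_mul_of_nonneg_left (pow_le_pow_right₀ hl1 (by norm_num)) (by positivity)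
        · refine hcont (x ^ 2) (2 * l) h2N ?_ (u5_sq S hxl) ?_
          · have : QuotientGroup.mk' M (x ^ 2) = 1 := (QuotientGroup.eq_one_iff _).2 h2M
            rw [this]
            exact Subgroup.one_mem _
          · simp only [if_true]
            have h3 : (2 : ℝ) ≤ lam ^ 3 := by
              have : (2 : ℝ) ^ 3 ≤ lam ^ 3 := pow_le_pow_left₀ (by norm_num) hl 3
              linarith
            have h4 : (0 : ℝ) ≤ l := Nat.cast_nonneg _
            push_cast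
            nlinarith [mul_nonneg (sub_nonneg.2 h3) h4, mul_nonneg (sub_nonneg.2 h3) hC0]
      · obtain ⟨z, hz, k, hk, hzk⟩ := hone (x ^ 2) (2 * l) h2M (u5_sq S hxl)
        refine hcont (cc (x ^ 2) z) k hz ?_ hzk ?_
        · rw [u5_map, map_pow]
          exact u5_sqa A _ hxA
        · refine hk.trans ?_
          simp only [if_true]
          have h4 : (0 : ℝ) ≤ l := Nat.cast_nonneg _
          have h5 : ((2 * l : ℕ) : ℝ) + (C0 + 1) ≤ (l + (C0 + 1)) * lam := by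
            push_cast
            nlinarith [mul_nonneg (sub_nonneg.2 hl) h4, mul_nonneg (sub_nonneg.2 hl) hC0]
          calc (((2 * l : ℕ) : ℝ) + (C0 + 1)) * lam ^ 2
              ≤ ((l + (C0 + 1)) * lam) * lam ^ 2 := mul_le_mul_of_nonneg_right h5 (by positivity)
            _ = (l + (C0 + 1)) * lam ^ 3 := by ring

/-- The chain of commutators and squares along the list `s` (variant of `b7_chain`). -/
theorem chain_ty {G : Type} [Group G] (S : Set G) (N M : Subgroup G) [M.Normal] (hNM : N ≤ M)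
    (lam : ℝ) (hl : 2 ≤ lam) (C0 : ℕ)
    (hstep : ∀ (x : G) (l : ℕ), x ∉ M → x ∈ Bl S l → ∃ z, cc x z ∉ N ∧
      ∀ n : ℕ, lam ^ 2 * l + C0 ≤ (n : ℝ) → cc x z ∈ Bl S n)
    (h0 : ∃ x ∈ Bl S 1, x ∉ M) (s : List Bool) (hs : Ser s (⊤ : Subgroup (G ⧸ M)) = ⊥) :
    ∃ y ∈ M, y ∉ N ∧ ∃ L : ℕ, (L : ℝ) ≤ (C0 + 3) * lam ^ bits s ∧ y ∈ Bl S L := by
  obtain ⟨x, hx1, hxM⟩ := h0
  obtain ⟨y, hyM, hyN, L, hL, hyL⟩ := u5_chain S N M lam hl C0 hstep s ⊤ inferInstance hs x 1
    hxM (Subgroup.mem_top _) hx1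
  refine ⟨y, hyM, hyN, L, ?_, hyL⟩
  have hC0 : (0 : ℝ) ≤ C0 := Nat.cast_nonneg _
  have hp : (0 : ℝ) < lam ^ bits s := by
    have : 0 < lam := by linarith
    positivity
  push_cast at hL
  nlinarith [hL, hp, hC0]

end Pool.Agent.Helper94.RS4
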