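import Pool.Agent.Helper94.RS4.U4b
import Pool.Agent.Helper94.RS4.U5
import Pool.Agent.Helper98.RS.B6

set_option autoImplicit false

open scoped Pointwise commutatorElement

namespace Pool.Agent.Helper94.RS4

open Pool.Agent.Helper98.RS

theorem ty_prim {G : Type} [Group G] {p d : ℕ} {N M : Subgroup G} [M.Normal]
    (h : Prim p d N M) :
    ∃ s : List Bool, Ser s (⊤ : Subgroup (G ⧸ M)) = ⊥ ∧ 2 ^ bits s ≤ 2 ^ 265 * d ^ 3 := by
  have hfi := h.fin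
  have hMfi : M.FiniteIndex := Subgroup.finiteIndex_of_le h.le
  have hfin : Finite (G ⧸ M) := inferInstance
  obtain ⟨hp, hMn', V, instA, instM, hfV, ρ, q, hinj, hirr, hdim, -⟩ := prim_rep h
  have hsol : Sol (G ⧸ M) := by
    obtain ⟨k, hk⟩ := h.solv
    refine ⟨k, ?_⟩
    rw [← map_derivedSeries_eq (QuotientGroup.mk'_surjective M) k, Subgroup.map_eq_bot_iff,
      QuotientGroup.ker_mk']
    exact hk.trans h.le
  obtain ⟨s, hs, hb⟩ := lin_ty (G ⧸ M) V ρ hsol hinj hirr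
  rw [hdim] at hb
  exact ⟨s, hs, hb⟩

private theorem u6_one_mem {G : Type} [Group G] (S : Set G) (n : ℕ) : (1 : G) ∈ Bl S n := by
  unfold Bl
  exact Set.one_mem_pow (by simp)

private theorem u6_mono {G : Type} [Group G] (S : Set G) {m n : ℕ} (h : m ≤ n) :
    Bl S m ⊆ Bl S n := by
  obtain ⟨k, rfl⟩ := Nat.exists_eq_add_of_le h
  intro x hx
  have h1 : x * 1 ∈ Bl S m * Bl S k := Set.mul_mem_mul hx (u6_one_mem S k)
  rw [mul_one] at h1
  unfold Bl at *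
  rwa [← pow_add] at h1

private theorem u6_exists {G : Type} [Group G] (S : Set G) (hS : Subgroup.closure S = ⊤)
    (M : Subgroup G) (hM : M ≠ ⊤) : ∃ s ∈ Bl S 1, s ∉ M := by
  by_contra hcon
  push Not at hcon
  apply hM
  rw [eq_top_iff, ← hS, Subgroup.closure_le]
  intro s hs
  exact hcon s (by unfold Bl; rw [pow_one]; exact Or.inl (Or.inr hs))

/-- The exponent. -/
private theorem u6_param (α : ℝ) (hα : 0 < α) (hα4 : α < 1 / 4) :
    ∃ κ : ℝ, 3 < κ ∧ (1 + κ) * α < 1 := by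
  have h4 : 4 < 1 / α := by
    rw [lt_div_iff₀ hα]
    linarith
  obtain ⟨c, hc1, hc2⟩ := _root_.exists_between h4
  refine ⟨c - 1, by linarith, ?_⟩
  have h5 : c * α < 1 / α * α := mul_lt_mul_of_pos_right hc2 hα
  rw [one_div, inv_mul_cancel₀ hα.ne'] at h5
  have h6 : 1 + (c - 1) = c := by ring
  rw [h6]
  exact h5

/-- From bits to length: `lam = 2 ^ (κ / 3)`. -/
private theorem u6_pow (κ : ℝ) (hκ : 3 < κ) (d b : ℕ) (hd : 1 ≤ d)
    (hb : 2 ^ b ≤ 2 ^ 265 * d ^ 3) :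
    ((2 : ℝ) ^ (κ / 3)) ^ b ≤ ((2 : ℝ) ^ (κ / 3)) ^ 265 * (d : ℝ) ^ κ := by
  have hd0 : (0 : ℝ) < d := by exact_mod_cast hd
  have h1 : ((2 : ℝ) ^ b) ≤ 2 ^ 265 * (d : ℝ) ^ 3 := by exact_mod_cast hb
  have h2 : ((2 : ℝ) ^ b) ^ (κ / 3) ≤ (2 ^ 265 * (d : ℝ) ^ 3) ^ (κ / 3) :=
    Real.rpow_le_rpow (by positivity) h1 (by linarith)
  have h3 : ((2 : ℝ) ^ (κ / 3)) ^ b = ((2 : ℝ) ^ b) ^ (κ / 3) := by
    rw [← Real.rpow_natCast, ← Real.rpow_mul (by norm_num), ← Real.rpow_natCast,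
      ← Real.rpow_mul (by norm_num), mul_comm]
  have h4 : ((2 : ℝ) ^ (κ / 3)) ^ 265 = ((2 : ℝ) ^ 265) ^ (κ / 3) := by
    rw [← Real.rpow_natCast, ← Real.rpow_mul (by norm_num), ← Real.rpow_natCast,
      ← Real.rpow_mul (by norm_num), mul_comm]
  have h5 : ((d : ℝ) ^ 3) ^ (κ / 3) = (d : ℝ) ^ κ := by
    rw [← Real.rpow_natCast, ← Real.rpow_mul hd0.le]
    congr 1
    push_cast
    ring
  rw [Real.mul_rpow (by positivity) (by positivity), h5, ← h4, ← h3] at h2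
  exact h2

/-- The dimensions are bounded, for every exponent below `1 / 4`. -/
theorem dim_bounded4 {G : Type} [Group G] (S : Set G) (hSf : S.Finite)
    (hS : Subgroup.closure S = ⊤) (α : ℝ) (hα : 0 < α) (hα4 : α < 1 / 4) (hG : GB S α) :
    ∃ D : ℕ, ∀ (p d : ℕ) (N M : Subgroup G), Prim p d N M → M ≠ ⊤ → d ≤ D := by
  obtain ⟨κ, hκ3, hβ⟩ := u6_param α hα hα4
  set l : ℝ := (2 : ℝ) ^ (κ / 3) with hl
  have hl2 : 2 < l := by
    calc (2 : ℝ) = (2 : ℝ) ^ (1 : ℝ) := (Real.rpow_one _).symm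
      _ < (2 : ℝ) ^ (κ / 3) := Real.rpow_lt_rpow_of_exponent_lt (by norm_num) (by linarith)
  have hκ : 1 ≤ κ := by linarith
  have hl4 : 0 < l ^ 2 - 4 := by nlinarith
  obtain ⟨C0, hC0⟩ := cheap_step S hSf hS α hα hα4 hG (l ^ 2 - 4) hl4
  obtain ⟨n0, hn0⟩ := hG
  -- constants
  set A : ℝ := (C0 + 3) * l ^ 265 with hA
  have hA0 : 0 ≤ A := by positivity
  set C3 : ℝ := A + 1 + n0 + 2 with hC3
  have hC30 : 0 < C3 := by positivity
  set β : ℝ := (1 + κ) * α with hβd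
  have hlog2 : 0 < Real.log 2 := Real.log_pos (by norm_num)
  refine ⟨⌈(C3 ^ α / Real.log 2) ^ (1 / (1 - β))⌉₊, ?_⟩
  intro p d N M hP hM
  rcases Nat.eq_zero_or_pos d with rfl | hd
  · exact Nat.zero_le _
  have hd1 : (1 : ℝ) ≤ d := by exact_mod_cast hd
  have hd0 : (0 : ℝ) < d := by linarith
  have hMn : M.Normal := hP.nM
  obtain ⟨s, hs, hb⟩ := ty_prim hP
  -- chain
  obtain ⟨y, hyM, hyN, L0, hL0, hyl⟩ := chain_ty S N M hP.le l hl2.le C0 (by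
      intro x k hxM hx
      obtain ⟨z, hz1, hz2⟩ := hC0 p d N M hP x k hxM hx
      refine ⟨z, hz1, fun n hn => hz2 n ?_⟩
      linarith) (u6_exists S hS M hM) s hs
  -- length
  set L : ℕ := ⌈A * (d : ℝ) ^ κ⌉₊ + n0 with hL
  have hiL : L0 ≤ L := by
    have h3' := u6_pow κ hκ3 d (bits s) hd hb
    have h4 : (L0 : ℝ) ≤ A * (d : ℝ) ^ κ := by
      have h5 : ((C0 : ℝ) + 3) * l ^ bits s ≤ (C0 + 3) * (l ^ 265 * (d : ℝ) ^ κ) :=
        mul_le_mul_of_nonneg_left h3' (by positivity)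
      rw [hA, mul_assoc]
      exact hL0.trans h5
    have h7 : (L0 : ℝ) ≤ (L : ℝ) := by
      rw [hL]
      push_cast
      have := Nat.le_ceil (A * (d : ℝ) ^ κ)
      have h8 : (0 : ℝ) ≤ n0 := Nat.cast_nonneg _
      linarith
    exact_mod_cast h7
  have hyL : y ∈ Bl S L := u6_mono S hiL hyl
  have hgp := growth_prim S hSf hS hP y L hyL hyM hyN
  have hge : n0 ≤ d * (L + 2 * d) := by
    have : n0 ≤ L := by rw [hL]; omega
    nlinarith
  have hcard := hn0 _ hge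
  have h2d : (2 : ℝ) ^ d ≤ Real.exp (((d * (L + 2 * d) : ℕ) : ℝ) ^ α) := by
    refine le_trans ?_ hcard
    exact_mod_cast hgp
  have hdκ : (d : ℝ) ≤ (d : ℝ) ^ κ := by
    calc (d : ℝ) = (d : ℝ) ^ (1 : ℝ) := (Real.rpow_one _).symm
      _ ≤ (d : ℝ) ^ κ := Real.rpow_le_rpow_of_exponent_le hd1 hκ
  have hlen : ((d * (L + 2 * d) : ℕ) : ℝ) ≤ C3 * (d : ℝ) ^ (1 + κ) := by
    have hLle : (L : ℝ) ≤ A * (d : ℝ) ^ κ + 1 + n0 := by
      rw [hL]
      push_cast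
      have := Nat.ceil_lt_add_one (a := A * (d : ℝ) ^ κ) (by positivity)
      linarith
    have h1 : (L : ℝ) + 2 * d ≤ C3 * (d : ℝ) ^ κ := by
      have h5 : (1 : ℝ) ≤ (d : ℝ) ^ κ := hd1.trans hdκ
      have h6 : (0 : ℝ) ≤ n0 := Nat.cast_nonneg _
      rw [hC3]
      nlinarith [hLle, h5, h6, hdκ]
    rw [Real.rpow_add hd0, Real.rpow_one]
    push_cast
    calc (d : ℝ) * (L + 2 * d) ≤ d * (C3 * (d : ℝ) ^ κ) := mul_le_mul_of_nonneg_left h1 hd0.le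
      _ = C3 * (d * (d : ℝ) ^ κ) := by ring
  have hmain : (d : ℝ) * Real.log 2 ≤ C3 ^ α * (d : ℝ) ^ β := by
    have h1 := Real.log_le_log (by positivity) h2d
    rw [Real.log_pow, Real.log_exp] at h1
    refine h1.trans ?_
    have h2 : ((d * (L + 2 * d) : ℕ) : ℝ) ^ α ≤ (C3 * (d : ℝ) ^ (1 + κ)) ^ α :=
      Real.rpow_le_rpow (Nat.cast_nonneg _) hlen hα.le
    refine h2.trans (le_of_eq ?_)
    rw [Real.mul_rpow hC30.le (by positivity), ← Real.rpow_mul hd0.le]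
  have hβ1 : 0 < 1 - β := by linarith
  have hfin : (d : ℝ) ^ (1 - β) ≤ C3 ^ α / Real.log 2 := by
    rw [le_div_iff₀ hlog2, Real.rpow_sub hd0, Real.rpow_one, div_mul_eq_mul_div,
      div_le_iff₀ (by positivity)]
    exact hmain
  have hd2 : (d : ℝ) ≤ (C3 ^ α / Real.log 2) ^ (1 / (1 - β)) := by
    calc (d : ℝ) = ((d : ℝ) ^ (1 - β)) ^ (1 / (1 - β)) := by
          rw [← Real.rpow_mul hd0.le, mul_one_div_cancel hβ1.ne', Real.rpow_one]
      _ ≤ _ := Real.rpow_le_rpow (by positivity) hfin (by positivity)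
  have hd3 := hd2.trans (Nat.le_ceil _)
  exact_mod_cast hd3

end Pool.Agent.Helper94.RS4
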